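import Pool.Agent.Y924.UF.Stm
import Pool.Agent.Y924.EL.Sem

/-! # Project UF (helper924), part FML (by helper383): meaning of the formulas of the level -/

set_option autoImplicit false

namespace Pool.Agent.Y383.UF

open Function
open Pool.Agent.Y924.EL Pool.Agent.Y924.UF

section

variable {K : Type} [CommRing K] (O : Set K)

lemma add_self_iff (x : K) : x + x = x ↔ x = 0 := by
  constructor
  · intro h
    have h1 : x + x = x + 0 := by rw [h, add_zero]
    exact add_left_cancel h1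
  · rintro rfl
    rw [add_zero]

lemma sat_powC {p a b : ℕ} (ha : 10 ≤ a) (hb : 10 ≤ b) (v : ℕ → K) :
    Sat O (powC p a b) v ↔ v a ^ p = v b := by
  have h1 : a ≠ 4 := by omega
  have h2 : a ≠ 5 := by omega
  have h3 : b ≠ 4 := by omega
  have h4 : b ≠ 5 := by omega
  have h5 : (4 : ℕ) ≠ 5 := by norm_num
  simp only [powC, Sat, sat_powF, update_self, update_of_ne h1, update_of_ne h2,
    update_of_ne h3, update_of_ne h4, update_of_ne h5]
  constructor
  · rintro ⟨x, y, rfl, rfl, h⟩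
    exact h
  · intro h
    exact ⟨_, _, rfl, rfl, h⟩

lemma sat_ExF (p k : ℕ) : ∀ v : ℕ → K, Sat O (ExF p k) v ↔ Ex (v 64) p k (v 20) := by
  induction k with
  | zero =>
    intro v
    exact add_self_iff _
  | succ k ih =>
    intro v
    simp only [ExF, Sat, ih, sat_powC O (show 10 ≤ 21 by norm_num) (show 10 ≤ 24 by norm_num), Ex]
    constructor
    · rintro ⟨w, y', ⟨a, h1, b, h2, h3⟩, c, d, h4, h5, h6⟩
      simp only [update_apply] at h1 h2 h3 h4 h5 h6
      norm_num at h1 h2 h3 h4 h5 h6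
      refine ⟨w, y', ?_, ?_⟩
      · rw [← h1, ← h2]
        exact h3
      · rw [h4, h5, h6]
    · rintro ⟨w, y', h1, h2⟩
      refine ⟨w, y', ⟨y', ?_, y', ?_, ?_⟩, w ^ p, v 64 * y', ?_, ?_, ?_⟩ <;>
        simp only [update_apply] <;> norm_num
      · exact h1
      · exact h2

lemma sat_HF (p : ℕ) (v : ℕ → K) : Sat O (HF p) v ↔ HH (v 64) p (v 20) := by
  simp only [HF, Sat, sat_ExF, sat_powC O (show 10 ≤ 21 by norm_num) (show 10 ≤ 24 by norm_num),
    HH]
  constructor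
  · rintro ⟨w, y', ⟨a, h1, b, h2, h3⟩, c, d, e, h4, h5, h6, h7⟩
    simp only [update_apply] at h1 h2 h3 h4 h5 h6 h7
    norm_num at h1 h2 h3 h4 h5 h6 h7
    refine ⟨w, y', ?_, ?_⟩
    · rw [← h1, ← h2]
      exact h3
    · rw [h4, h5, h6, h7]
  · rintro ⟨w, y', h1, h2⟩
    refine ⟨w, y', ⟨y', ?_, y', ?_, ?_⟩, w ^ p, v 64 * y', w ^ p + v 64 * y', ?_, ?_, ?_, ?_⟩ <;>
      simp only [update_apply] <;> norm_num
    · exact h1
    · exact h2.symm

lemma sat_BF (p : ℕ) (v : ℕ → K) :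
    Sat O (BF p) v ↔ BB (v 64) p (v 65) (v 66) (v 30) (v 31) (v 32) := by
  simp only [BF, Sat, sat_HF, BB]
  constructor
  · rintro ⟨x, y, q, z, h1, h2, h3, h4, h5⟩
    simp only [update_apply] at h1 h2 h3 h4 h5
    norm_num at h1 h2 h3 h4 h5
    refine ⟨z, ?_, h5⟩
    rw [← h1, ← h2, ← h4, ← h3]
    ring
  · rintro ⟨z, h1, h2⟩
    refine ⟨v 65 - v 31, v 66 - v 32, (v 65 - v 31) * (v 66 - v 32), z, ?_, ?_, ?_, ?_, ?_⟩ <;>
      simp only [update_apply] <;> norm_num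
    · exact h1
    · exact h2

lemma sat_BFa (p : ℕ) {a b c : ℕ} (ha : a ≠ 30) (hb : b ≠ 30) (hb1 : b ≠ 31) (hc : c ≠ 30)
    (hc1 : c ≠ 31) (hc2 : c ≠ 32) (v : ℕ → K) :
    Sat O (BFa p a b c) v ↔ BB (v 64) p (v 65) (v 66) (v a) (v b) (v c) := by
  simp only [BFa, Sat, sat_BF, update_self, update_of_ne ha, update_of_ne hb, update_of_ne hb1,
    update_of_ne hc, update_of_ne hc1, update_of_ne hc2]
  constructor
  · rintro ⟨x, rfl, y, rfl, z, rfl, h⟩
    simp only [update_apply] at h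
    norm_num at h
    exact h
  · intro h
    refine ⟨_, rfl, _, rfl, _, rfl, ?_⟩
    simp only [update_apply]
    norm_num
    exact h

lemma sat_DF (φ' : Fm) (v : ℕ → K) :
    Sat O (DF φ') v ↔ (Sat O φ' v ∨ v 0 = 0 ∨ v 0 = 1) := by
  simp only [DF, Sat, add_self_iff]
  tauto

lemma sat_DFa (φ' : Fm) {S : Set K} {Q : (ℕ → K) → Prop} (hK : Keeps Q)
    (hS : ∀ v, Q v → (Sat O φ' v ∨ v 0 = 0 ∨ v 0 = 1 ↔ v 0 ∈ S)) {a : ℕ} (ha : a ≠ 0)
    {v : ℕ → K} (hv : Q v) : Sat O (DFa φ' a) v ↔ v a ∈ S := by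
  simp only [DFa, Sat, sat_DF, update_self, update_of_ne ha]
  constructor
  · rintro ⟨x, rfl, h⟩
    have h1 := hS _ (hK v 0 (v a) (by norm_num) hv)
    rw [update_self] at h1
    exact h1.1 h
  · intro h
    have h1 := hS _ (hK v 0 (v a) (by norm_num) hv)
    rw [update_self] at h1
    exact ⟨_, rfl, h1.2 h⟩

end

theorem t_FML : S_FML := by
  intro K _ O p φ' S t u w l Q hK hP hS v hv
  obtain ⟨ht, hu, hw, hl⟩ := hP v hv
  refine ⟨?_, ?_, ?_⟩
  · exact (sat_DF O φ' v).trans (hS v hv)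
  · show (Sat O (DF φ') v ∧ Sat O (DFa φ' 1) v ∧ Sat O (BFa p 67 0 1) v) ↔
      (v 0 ∈ S ∧ v 1 ∈ S ∧ BB t p u w l (v 0) (v 1))
    rw [sat_DF, hS v hv, sat_DFa O φ' hK hS (by norm_num) hv,
      sat_BFa O p (by norm_num) (by norm_num) (by norm_num) (by norm_num) (by norm_num)
        (by norm_num), ht, hu, hw, hl]
  · show (Sat O (DFa φ' 1) v ∧ Sat O (DFa φ' 2) v ∧ Sat O (BFa p 0 1 2) v ∧
      ¬ ∃ x : K, Sat O (DFa φ' 36) (update v 36 x) ∧ Sat O (BFa p 0 1 36) (update v 36 x) ∧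
        ¬ (update v 36 x 36 = update v 36 x 2)) ↔
      (v 1 ∈ S ∧ v 2 ∈ S ∧ BB t p u w (v 0) (v 1) (v 2) ∧
        ∀ v', v' ∈ S → BB t p u w (v 0) (v 1) v' → v' = v 2)
    have h36 : ∀ x : K, (Sat O (DFa φ' 36) (update v 36 x) ∧
        Sat O (BFa p 0 1 36) (update v 36 x) ∧ ¬ (update v 36 x 36 = update v 36 x 2)) ↔
        (x ∈ S ∧ BB t p u w (v 0) (v 1) x ∧ ¬ x = v 2) := by
      intro x
      have hv' : Q (update v 36 x) := hK v 36 x (by norm_num) hv
      rw [sat_DFa O φ' hK hS (by norm_num) hv',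
        sat_BFa O p (by norm_num) (by norm_num) (by norm_num) (by norm_num) (by norm_num)
          (by norm_num)]
      simp only [update_apply]
      norm_num
      rw [ht, hu, hw]
      exact fun _ _ => Iff.rfl
    simp only [h36]
    rw [sat_DFa O φ' hK hS (by norm_num) hv, sat_DFa O φ' hK hS (by norm_num) hv,
      sat_BFa O p (by norm_num) (by norm_num) (by norm_num) (by norm_num) (by norm_num)
        (by norm_num), ht, hu, hw]
    refine and_congr_right fun _ => and_congr_right fun _ => and_congr_right fun _ => ?_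
    constructor
    · intro h v' h1 h2
      by_contra h3
      exact h ⟨v', h1, h2, h3⟩
    · rintro h ⟨x, h1, h2, h3⟩
      exact h3 (h x h1 h2)

end Pool.Agent.Y383.UF
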